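import Mathlib
import Pool.Agent.Y972.LR.Prod

set_option autoImplicit false

/-!
# The linear refinement number: regularity, and the lengths of refinements of smaller families

All notions are those of the problem file, for families of infinite subsets of `ℕ`.
-/

open Cardinal

namespace Pool.Agent.Results.MP_540072_lc.LengthsBelow

/-- `B ⊆* A`: the set `B \ A` is finite. -/
def AlmostSubset (B A : Set ℕ) : Prop := (B \ A).Finite

/-- `F` is centered: the intersection of any finitely many (at least one) members is infinite;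
in particular all members are infinite. -/
def IsCentered (F : Set (Set ℕ)) : Prop :=
  ∀ Φ : Finset (Set ℕ), Φ.Nonempty → (↑Φ : Set (Set ℕ)) ⊆ F → (⋂ A ∈ Φ, A).Infinite

/-- `G` is linear: a family of infinite sets any two of which are comparable by `⊆*`. -/
def IsLinear (G : Set (Set ℕ)) : Prop :=
  (∀ A ∈ G, A.Infinite) ∧ ∀ A ∈ G, ∀ B ∈ G, AlmostSubset A B ∨ AlmostSubset B A

/-- `G` is a refinement of `F`: every `A ∈ F` has some `B ∈ G` with `B ⊆* A`. -/
def IsRefinement (G F : Set (Set ℕ)) : Prop := ∀ A ∈ F, ∃ B ∈ G, AlmostSubset B A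

/-- The linear refinement number: the least cardinality of a centered family which has no linear
refinement. -/
noncomputable def linearRefinementNumber : Cardinal.{0} :=
  sInf {κ : Cardinal.{0} | ∃ F : Set (Set ℕ), IsCentered F ∧ #F = κ ∧
    ¬ ∃ G : Set (Set ℕ), IsLinear G ∧ IsRefinement G F}

/-- `F` has an infinite pseudointersection. -/
def HasPseudointersection (F : Set (Set ℕ)) : Prop :=
  ∃ P : Set ℕ, P.Infinite ∧ ∀ A ∈ F, AlmostSubset P A

/-- `t` is a `⊆*`-decreasing sequence (not necessarily strictly) of infinite sets of length `κ`,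
that is, indexed by the least ordinal of cardinality `κ`. -/
def IsDecreasing (κ : Cardinal.{0}) (t : κ.ord.ToType → Set ℕ) : Prop :=
  (∀ i, (t i).Infinite) ∧ ∀ i j, i ≤ j → AlmostSubset (t j) (t i)

/-- `F` has a refinement by a decreasing sequence of length `κ`. -/
def RefinedBySequence (κ : Cardinal.{0}) (F : Set (Set ℕ)) : Prop :=
  ∃ t : κ.ord.ToType → Set ℕ, IsDecreasing κ t ∧ IsRefinement (Set.range t) F

/-- The tower number `𝔱`: the least length of a decreasing sequence of infinite sets without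
pseudointersection. -/
noncomputable def towerNumber : Cardinal.{0} :=
  sInf {κ : Cardinal.{0} | ∃ t : κ.ord.ToType → Set ℕ, IsDecreasing κ t ∧
    ¬ HasPseudointersection (Set.range t)}

/-- The pseudointersection number `𝔭`: the least cardinality of a centered family without
pseudointersection. -/
noncomputable def pseudointersectionNumber : Cardinal.{0} :=
  sInf {κ : Cardinal.{0} | ∃ F : Set (Set ℕ), IsCentered F ∧ #F = κ ∧ ¬ HasPseudointersection F}

/-- The least cardinality of a centered family which has neither a pseudointersection nor a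
refinement by a decreasing sequence whose length belongs to `K`. -/
noncomputable def refinementNumber (K : Set Cardinal.{0}) : Cardinal.{0} :=
  sInf {κ : Cardinal.{0} | ∃ F : Set (Set ℕ), IsCentered F ∧ #F = κ ∧
    ¬ HasPseudointersection F ∧ ∀ μ ∈ K, ¬ RefinedBySequence μ F}

section

open Pool.Agent.H829R3.LR Pool.Agent.Y972.LR

lemma centered_iff (F : Set (Set ℕ)) : IsCentered F ↔ Cent F := by
  constructor
  · intro h Φ hΦ
    rcases Φ.eq_empty_or_nonempty with rfl | hne
    · simpa using Set.infinite_univ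
    · exact h Φ hne hΦ
  · intro h Φ _ hΦ
    exact h Φ hΦ

lemma small_refined {G : Set (Set ℕ)} (hG : Cent G) (hGc : #G < linearRefinementNumber) :
    ∃ T : Set (Set ℕ), Lin T ∧ Ref T G := by
  by_contra hcon
  have : linearRefinementNumber ≤ #G := csInf_le' ⟨G, (centered_iff G).2 hG, rfl, hcon⟩
  exact absurd hGc (not_lt.2 this)

lemma exists_least : ∃ F : Set (Set ℕ), Cent F ∧ #F = linearRefinementNumber ∧
    ¬ ∃ T : Set (Set ℕ), Lin T ∧ Ref T F := by
  have hne : {κ : Cardinal.{0} | ∃ F : Set (Set ℕ), IsCentered F ∧ #F = κ ∧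
      ¬ ∃ G : Set (Set ℕ), IsLinear G ∧ IsRefinement G F}.Nonempty := by
    obtain ⟨F, hF, hno⟩ := exists_bad
    exact ⟨#F, F, (centered_iff F).2 hF, rfl, fun h => hno h⟩
  obtain ⟨F, hF, hFc, hno⟩ := csInf_mem hne
  exact ⟨F, (centered_iff F).1 hF, hFc, hno⟩

lemma lr_regular : linearRefinementNumber.IsRegular := by
  obtain ⟨F, hF, hFc, hno⟩ := exists_least
  exact regular_of (fun G hG hGc => small_refined hG hGc) F hF hFc hno

lemma aleph0_lt_lr : ℵ₀ < linearRefinementNumber := by
  obtain ⟨F, hF, hFc, hno⟩ := exists_least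
  by_contra h
  apply hno
  rw [not_lt, ← hFc, Cardinal.le_aleph0_iff_set_countable] at h
  obtain ⟨B, hB, hBA⟩ := countable_pseudo hF h
  exact ⟨{B}, ⟨by simpa using hB, by simp [AlmostLE.refl]⟩, fun A hA => ⟨B, rfl, hBA A hA⟩⟩

/-- the tower number is regular and attained -/
lemma tower_facts : towerNumber.IsRegular ∧ ∃ B : towerNumber.ord.ToType → Set ℕ,
    Dec towerNumber B ∧ ¬ ∃ P, Ps P (Set.range B) := by
  have hne : {κ : Cardinal.{0} | ∃ t : κ.ord.ToType → Set ℕ, IsDecreasing κ t ∧
      ¬ HasPseudointersection (Set.range t)}.Nonempty := by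
    obtain ⟨μ, B, -, hB, hno⟩ := exists_tower
    exact ⟨μ, B, hB, hno⟩
  obtain ⟨B, hB, hno⟩ : ∃ B : towerNumber.ord.ToType → Set ℕ, IsDecreasing towerNumber B ∧
      ¬ HasPseudointersection (Set.range B) := csInf_mem hne
  have hB' : Dec towerNumber B := hB
  have hno' : ¬ ∃ P, Ps P (Set.range B) := hno
  refine ⟨?_, B, hB', hno'⟩
  have hrne : (Set.range B).Nonempty := by
    rw [Set.nonempty_iff_ne_empty]
    intro h
    exact hno' ⟨Set.univ, Set.infinite_univ, by rw [h]; simp⟩
  obtain ⟨κ, hκ, hκc, t, ht, hdec, hco⟩ := lin_seq hB'.lin hrne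
  have hD : Dec κ t := ⟨fun i => hB'.lin.1 _ (ht i), hdec⟩
  have hnt : ¬ ∃ P, Ps P (Set.range t) := by
    rintro ⟨P, hP, hPt⟩
    refine hno' ⟨P, hP, fun A hA => ?_⟩
    obtain ⟨i, hi⟩ := hco A hA
    exact (hPt _ ⟨i, rfl⟩).trans hi
  have h1 : towerNumber ≤ κ := csInf_le' ⟨t, hD, hnt⟩
  have h2 : κ ≤ towerNumber := hκc.trans (mk_range_dec _ B)
  obtain rfl : κ = towerNumber := le_antisymm h2 h1
  rcases hκ with h | h
  · exfalso
    have hsub : Subsingleton towerNumber.ord.ToType := by
      rw [← Cardinal.le_one_iff_subsingleton]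
      simp [h]
    obtain ⟨_, i, rfl⟩ := hrne
    apply hno'
    refine ⟨B i, hB'.1 i, ?_⟩
    rintro _ ⟨j, rfl⟩
    rw [Subsingleton.elim i j]
    exact AlmostLE.refl _
  · exact h

/-- families smaller than the linear refinement number are refined by sequences of length `𝔱` -/
lemma refined {F : Set (Set ℕ)} (hF : Cent F) (hFc : #F < linearRefinementNumber) :
    ∃ u : towerNumber.ord.ToType → Set ℕ, Dec towerNumber u ∧ Ref (Set.range u) F := by
  obtain ⟨ht, B, hB, hno⟩ := tower_facts
  exact below aleph0_lt_lr (fun G hG hGc => small_refined hG hGc) ht hB hno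
    (fun κ ⟨t, ht1, ht2⟩ => csInf_le' ⟨t, ht1, ht2⟩) hF hFc

/-- uniqueness of the length -/
lemma unique {F : Set (Set ℕ)} (hFc : #F < linearRefinementNumber)
    (hno : ¬ HasPseudointersection F) {κ : Cardinal.{0}} (hκ : κ.IsRegular)
    (h : RefinedBySequence κ F) : κ = towerNumber := by
  obtain ⟨t, ht, hR⟩ := h
  have ht' : Dec κ t := ht
  have hκF : κ ≤ #F := le_of_refines hκ ht' hR hno
  have hnt : ¬ ∃ P, Ps P (Set.range t) := by
    rintro ⟨P, hP, hPt⟩
    refine hno ⟨P, hP, fun A hA => ?_⟩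
    obtain ⟨_, ⟨i, rfl⟩, hi⟩ := hR A hA
    exact AlmostLE.trans (hPt _ ⟨i, rfl⟩) hi
  have hlt : #(Set.range t) < linearRefinementNumber :=
    lt_of_le_of_lt ((mk_range_dec κ t).trans hκF) hFc
  obtain ⟨u, hu, hRu⟩ := refined (Lin.cent ht'.lin) hlt
  exact (compare hκ ht' hnt (Or.inr tower_facts.1) hu hRu).symm

lemma p_le_lr : pseudointersectionNumber ≤ linearRefinementNumber := by
  obtain ⟨F, hF, hFc, hno⟩ := exists_least
  refine csInf_le' ⟨F, (centered_iff F).2 hF, hFc, ?_⟩
  rintro ⟨P, hP, hPF⟩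
  exact hno ⟨{P}, ⟨by simpa using hP, by simp [AlmostLE.refl]⟩, fun A hA => ⟨P, rfl, hPF A hA⟩⟩

lemma exists_p : ∃ F : Set (Set ℕ), Cent F ∧ #F = pseudointersectionNumber ∧
    ¬ HasPseudointersection F := by
  have hne : {κ : Cardinal.{0} | ∃ F : Set (Set ℕ), IsCentered F ∧ #F = κ ∧
      ¬ HasPseudointersection F}.Nonempty := by
    obtain ⟨F, hF, hFc, hno⟩ := exists_least
    refine ⟨#F, F, (centered_iff F).2 hF, rfl, ?_⟩
    rintro ⟨P, hP, hPF⟩
    exact hno ⟨{P}, ⟨by simpa using hP, by simp [AlmostLE.refl]⟩,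
      fun A hA => ⟨P, rfl, hPF A hA⟩⟩
  obtain ⟨F, hF, hFc, hno⟩ := csInf_mem hne
  exact ⟨F, (centered_iff F).1 hF, hFc, hno⟩

/-- either `𝔭 = 𝔩𝔯` or `𝔭 = 𝔱` -/
lemma p_cases : pseudointersectionNumber = linearRefinementNumber ∨
    pseudointersectionNumber = towerNumber := by
  rcases p_le_lr.eq_or_lt with h | h
  · exact Or.inl h
  · right
    obtain ⟨ht, B, hB, hno⟩ := tower_facts
    obtain ⟨F, hF, hFc, hFno⟩ := exists_p
    obtain ⟨u, hu, hR⟩ := refined hF (by rw [hFc]; exact h)
    apply le_antisymm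
    · have h1 : pseudointersectionNumber ≤ #(Set.range B) :=
        csInf_le' ⟨Set.range B, (centered_iff _).2 (Lin.cent hB.lin), rfl, hno⟩
      exact h1.trans (mk_range_dec _ B)
    · rw [← hFc]
      exact le_of_refines ht hu hR hFno

/-- a refinement number is at most the linear refinement number -/
lemma ref_le_lr (K : Set Cardinal.{0}) : refinementNumber K ≤ linearRefinementNumber := by
  obtain ⟨F, hF, hFc, hno⟩ := exists_least
  refine csInf_le' ⟨F, (centered_iff F).2 hF, hFc, ?_, ?_⟩
  · rintro ⟨P, hP, hPF⟩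
    exact hno ⟨{P}, ⟨by simpa using hP, by simp [AlmostLE.refl]⟩, fun A hA => ⟨P, rfl, hPF A hA⟩⟩
  · rintro μ _ ⟨t, ht, hR⟩
    have ht' : Dec μ t := ht
    exact hno ⟨Set.range t, ht'.lin, hR⟩

lemma exists_ref (K : Set Cardinal.{0}) : ∃ F : Set (Set ℕ), Cent F ∧ #F = refinementNumber K ∧
    ¬ HasPseudointersection F ∧ ∀ μ ∈ K, ¬ RefinedBySequence μ F := by
  have hne : {κ : Cardinal.{0} | ∃ F : Set (Set ℕ), IsCentered F ∧ #F = κ ∧
      ¬ HasPseudointersection F ∧ ∀ μ ∈ K, ¬ RefinedBySequence μ F}.Nonempty := by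
    obtain ⟨F, hF, hFc, hno⟩ := exists_least
    refine ⟨#F, F, (centered_iff F).2 hF, rfl, ?_, ?_⟩
    · rintro ⟨P, hP, hPF⟩
      exact hno ⟨{P}, ⟨by simpa using hP, by simp [AlmostLE.refl]⟩,
        fun A hA => ⟨P, rfl, hPF A hA⟩⟩
    · rintro μ _ ⟨t, ht, hR⟩
      have ht' : Dec μ t := ht
      exact hno ⟨Set.range t, ht'.lin, hR⟩
  obtain ⟨F, hF, hFc, hno⟩ := csInf_mem hne
  exact ⟨F, (centered_iff F).1 hF, hFc, hno⟩

end

/-- **The linear refinement number is regular; below it, all refinements have length `𝔱`; and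
every variant of it, in which only the lengths in a set `K` of regular cardinals are allowed for
the refinements, is regular too and equal to `𝔩𝔯` or to `𝔭`.** -/
theorem result :
    linearRefinementNumber.IsRegular ∧
    (∀ F : Set (Set ℕ), IsCentered F → #F < linearRefinementNumber → ¬ HasPseudointersection F →
      ∀ κ : Cardinal.{0}, κ.IsRegular → (RefinedBySequence κ F ↔ κ = towerNumber)) ∧
    ∀ K : Set Cardinal.{0}, (∀ κ ∈ K, κ.IsRegular) →
      (refinementNumber K).IsRegular ∧
      (towerNumber ∈ K → refinementNumber K = linearRefinementNumber) ∧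
      (towerNumber ∉ K → refinementNumber K = pseudointersectionNumber) := by
  have h1 : ∀ K : Set Cardinal.{0}, towerNumber ∈ K →
      refinementNumber K = linearRefinementNumber := by
    intro K hK
    apply le_antisymm (ref_le_lr K)
    obtain ⟨F, hF, hFc, -, hno⟩ := exists_ref K
    rw [← hFc]
    by_contra hlt
    rw [not_le] at hlt
    obtain ⟨u, hu, hR⟩ := refined hF hlt
    exact hno _ hK ⟨u, hu, hR⟩
  have h2 : ∀ K : Set Cardinal.{0}, (∀ κ ∈ K, κ.IsRegular) → towerNumber ∉ K →
      refinementNumber K = pseudointersectionNumber := by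
    intro K hKr hK
    apply le_antisymm
    · rcases p_le_lr.eq_or_lt with h | h
      · rw [h]
        exact ref_le_lr K
      · obtain ⟨F, hF, hFc, hFno⟩ := exists_p
        refine csInf_le' ⟨F, (centered_iff F).2 hF, hFc, hFno, ?_⟩
        intro μ hμ hR
        have h3 := unique (by rw [hFc]; exact h) hFno (hKr μ hμ) hR
        exact hK (h3 ▸ hμ)
    · obtain ⟨F, hF, hFc, hFno, -⟩ := exists_ref K
      exact csInf_le' ⟨F, (centered_iff F).2 hF, hFc, hFno⟩
  refine ⟨lr_regular, ?_, ?_⟩
  · intro F hF hFc hno κ hκ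
    constructor
    · exact unique hFc hno hκ
    · rintro rfl
      obtain ⟨u, hu, hR⟩ := refined ((centered_iff F).1 hF) hFc
      exact ⟨u, hu, hR⟩
  · intro K hK
    refine ⟨?_, h1 K, h2 K hK⟩
    by_cases h : towerNumber ∈ K
    · rw [h1 K h]
      exact lr_regular
    · rw [h2 K hK h]
      rcases p_cases with h3 | h3
      · rw [h3]
        exact lr_regular
      · rw [h3]
        exact tower_facts.1

end Pool.Agent.Results.MP_540072_lc.LengthsBelow
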